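import Mathlib
import Pool.Agent.H985.Sep
import Pool.Agent.TH84.NC.Main2

set_option autoImplicit false

/-!
# Normal cones of the polar body and faces of the body

If the face `{y ∈ K | ⟪v, y - o⟫ = 1}` of `K` has dimension less than `k` then the normal cone of the
polar body of `K` with respect to `o` at the point `v` has dimension at most `k`.
-/

namespace Pool.Agent.Y368

open scoped InnerProductSpace RealInnerProductSpace
open Metric Pool.Agent.H985.Sep

/-- The bipolar theorem in the form needed here: if `⟪w, ·⟫ ≤ 1` on the polar body then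
`o + w ∈ K`. -/
theorem mem_of_polar_le {E : Type*} [NormedAddCommGroup E] [InnerProductSpace ℝ E]
    [FiniteDimensional ℝ E] {K : Set E} (hK : Convex ℝ K) (hKc : IsCompact K) {o : E}
    (ho : o ∈ interior K) (w : E) (hw : ∀ z ∈ polar K o, ⟪w, z⟫_ℝ ≤ 1) : o + w ∈ K := by
  by_contra hcon
  obtain ⟨g, c, hg1, hg2⟩ := geometric_hahn_banach_closed_point hK hKc.isClosed hcon
  let n : E := (InnerProductSpace.toDual ℝ E).symm g
  have hn : ∀ x, g x = ⟪n, x⟫_ℝ := fun x => (InnerProductSpace.toDual_symm_apply).symm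
  have ho' : g o < c := hg1 o (interior_subset ho)
  have hc0 : 0 < c - g o := by linarith
  have hmem : (c - g o)⁻¹ • n ∈ polar K o := by
    intro y hy
    have h1 := hg1 y hy
    rw [real_inner_smul_left, inner_sub_right, ← hn, ← hn, inv_mul_le_iff₀ hc0]
    linarith
  have h2 := hw _ hmem
  rw [real_inner_smul_right, inv_mul_le_iff₀ hc0, real_inner_comm, ← hn, mul_one] at h2
  rw [map_add] at hg2
  linarith

theorem zero_mem_interior_polar {E : Type*} [NormedAddCommGroup E] [InnerProductSpace ℝ E]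
    {K : Set E} {o : E} (hKc : IsCompact K) (ho : o ∈ interior K) :
    (0 : E) ∈ interior (polar K o) := by
  obtain ⟨R, hR⟩ : ∃ R : ℝ, ∀ y ∈ K, ‖y - o‖ ≤ R := by
    obtain ⟨R, hR⟩ := hKc.isBounded.subset_closedBall o
    exact ⟨R, fun y hy => by simpa [dist_eq_norm] using hR hy⟩
  have hR0 : 0 ≤ R := (norm_nonneg _).trans (hR o (interior_subset ho))
  rw [mem_interior]
  refine ⟨ball 0 (1 / (R + 1)), ?_, isOpen_ball, by simp; positivity⟩
  intro v hv y hy
  rw [mem_ball_zero_iff] at hv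
  calc ⟪v, y - o⟫_ℝ ≤ ‖v‖ * ‖y - o‖ := real_inner_le_norm _ _
    _ ≤ 1 / (R + 1) * R := by
        gcongr
        exact hR y hy
    _ ≤ 1 := by
        rw [div_mul_eq_mul_div, one_mul, div_le_one (by positivity)]
        linarith

/-- A functional which is maximal on the polar body at `v` is a multiple of a point of the face
`{y ∈ K | ⟪v, y - o⟫ = 1}` (seen from `o`). -/
theorem normal_mem_span {E : Type*} [NormedAddCommGroup E] [InnerProductSpace ℝ E]
    [FiniteDimensional ℝ E] {K : Set E} (hK : Convex ℝ K) (hKc : IsCompact K) {o : E}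
    (ho : o ∈ interior K) (v w : E) (hw : ∀ z ∈ polar K o, ⟪w, z⟫_ℝ ≤ ⟪w, v⟫_ℝ) :
    w ∈ Submodule.span ℝ {x | ∃ y ∈ K, ⟪v, y - o⟫_ℝ = 1 ∧ x = y - o} := by
  rcases eq_or_ne w 0 with rfl | hw0
  · exact Submodule.zero_mem _
  obtain ⟨ε, hε, hball⟩ := Metric.isOpen_iff.mp isOpen_interior 0 (zero_mem_interior_polar hKc ho)
  have hwn : 0 < ‖w‖ := norm_pos_iff.mpr hw0
  have hpos : 0 < ⟪w, v⟫_ℝ := by
    have h1 : (ε / 2 / ‖w‖) • w ∈ polar K o := by
      apply interior_subset
      apply hball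
      rw [mem_ball_zero_iff, norm_smul, Real.norm_of_nonneg (by positivity),
        div_mul_cancel₀ _ hwn.ne']
      linarith
    have h2 := hw _ h1
    rw [real_inner_smul_right, real_inner_self_eq_norm_sq] at h2
    have : 0 < ε / 2 / ‖w‖ * ‖w‖ ^ 2 := by positivity
    linarith
  set c := ⟪w, v⟫_ℝ with hc
  have hy : o + c⁻¹ • w ∈ K := by
    refine mem_of_polar_le hK hKc ho _ fun z hz => ?_
    rw [real_inner_smul_left, inv_mul_le_iff₀ hpos, mul_one]
    exact hw z hz
  have hmem : c⁻¹ • w ∈ {x | ∃ y ∈ K, ⟪v, y - o⟫_ℝ = 1 ∧ x = y - o} := by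
    refine ⟨_, hy, ?_, by rw [add_sub_cancel_left]⟩
    rw [add_sub_cancel_left, real_inner_smul_right, real_inner_comm, ← hc,
      inv_mul_cancel₀ hpos.ne']
  have h3 := Submodule.smul_mem _ c (Submodule.subset_span hmem)
  rwa [smul_smul, mul_inv_cancel₀ hpos.ne', one_smul] at h3

theorem finrank_span_le {E : Type*} [NormedAddCommGroup E] [InnerProductSpace ℝ E]
    [FiniteDimensional ℝ E] (F : Set E) (o : E) (k : ℕ)
    (hF : Module.finrank ℝ (vectorSpan ℝ F) < k) :
    Module.finrank ℝ (Submodule.span ℝ {x | ∃ y ∈ F, x = y - o}) ≤ k := by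
  rcases F.eq_empty_or_nonempty with rfl | ⟨y₁, hy₁⟩
  · have : {x : E | ∃ y ∈ (∅ : Set E), x = y - o} = ∅ := by
      ext x; simp
    rw [this, Submodule.span_empty]
    simp
  · have hle : Submodule.span ℝ {x | ∃ y ∈ F, x = y - o}
        ≤ vectorSpan ℝ F ⊔ Submodule.span ℝ {y₁ - o} := by
      rw [Submodule.span_le]
      rintro x ⟨y, hy, rfl⟩
      have h1 : y - y₁ ∈ vectorSpan ℝ F := vsub_mem_vectorSpan ℝ hy hy₁
      have h2 : y₁ - o ∈ Submodule.span ℝ {y₁ - o} := Submodule.mem_span_singleton_self _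
      have h3 := Submodule.add_mem_sup h1 h2
      rwa [sub_add_sub_cancel] at h3
    have h1 := Submodule.finrank_mono hle
    have h2 := Submodule.finrank_add_le_finrank_add_finrank (vectorSpan ℝ F)
      (Submodule.span ℝ {y₁ - o})
    have h3 : Module.finrank ℝ (Submodule.span ℝ {y₁ - o}) ≤ 1 := by
      have := finrank_span_le_card (R := ℝ) ({y₁ - o} : Set E)
      simpa using this
    omega

open Pool.Agent.PZ871 (E)

/-- Faces of small dimension give normal cones of small dimension of the polar body. -/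
theorem normalDim_polar {d : ℕ} {K : Set (E d)} (hK : Convex ℝ K) (hKc : IsCompact K) {o : E d}
    (ho : o ∈ interior K) (k : ℕ) (v : E d)
    (hv : Module.finrank ℝ (vectorSpan ℝ {y ∈ K | ⟪v, y - o⟫_ℝ = 1}) < k) :
    Pool.Agent.TH84.NC.NormalDim (polar K o) k v := by
  set S : Submodule ℝ (E d) :=
    Submodule.span ℝ {x | ∃ y ∈ {y ∈ K | ⟪v, y - o⟫_ℝ = 1}, x = y - o} with hS
  have hSk : Module.finrank ℝ S ≤ k := finrank_span_le _ o k hv
  refine ⟨Sᗮ, ?_, ?_⟩
  · have h1 := Submodule.finrank_add_finrank_orthogonal S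
    rw [finrank_euclideanSpace_fin] at h1
    omega
  · intro f hf x hx
    let w : E d := (InnerProductSpace.toDual ℝ (E d)).symm f
    have hfw : ∀ z, f z = ⟪w, z⟫_ℝ := fun z => (InnerProductSpace.toDual_symm_apply).symm
    have hw : w ∈ S := by
      have h1 := normal_mem_span hK hKc ho v w (fun z hz => by rw [← hfw, ← hfw]; exact hf z hz)
      refine Submodule.span_mono ?_ h1
      rintro x ⟨y, hy, h2, rfl⟩
      exact ⟨y, ⟨hy, h2⟩, rfl⟩
    rw [hfw]
    exact (Submodule.mem_orthogonal S x).mp hx w hw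

end Pool.Agent.Y368
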